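import Pool.Agent.W845.GL.Stm

set_option autoImplicit false

namespace Pool.Agent.W214.GL

open Pool.Agent.W845.GL
open Filter MeasureTheory Finset
open scoped Classical Topology

noncomputable section

instance finmu : IsFiniteMeasure mu := by
  unfold mu
  infer_instance

theorem ev_mono (u : Fin 2 →₀ ℕ) (a s t : ℝ) :
    MvPolynomial.eval ![s, t] (MvPolynomial.monomial u a) = a * (s ^ (u 0) * t ^ (u 1)) := by
  rw [MvPolynomial.eval_monomial, Finsupp.prod_fintype _ _ (fun i => pow_zero _), Fin.prod_univ_two]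
  simp

theorem cardB (i : ℕ) : (Fintype.card (Fin i → Bool) : ℝ) = (2 : ℝ) ^ i := by
  simp

theorem tstar (hST : S_ST) (hSD : S_SD) (i m : ℕ) :
    tW (KK i) (Star m) = (∑ x : Fin i → Bool, DD i x ^ m) / (2 : ℝ) ^ i := by
  rw [(hST (Fin i → Bool) (KK i)).1 m, cardB]
  congr 1
  refine Finset.sum_congr rfl fun x _ => ?_
  rw [hSD i x]

theorem tdstar (hST : S_ST) (hSD : S_SD) (i l m : ℕ) :
    tW (KK i) (DStar l m)
      = (∑ x : Fin i → Bool, ∑ y : Fin i → Bool, KK i x y * DD i x ^ l * DD i y ^ m) / (4 : ℝ) ^ i := by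
  rw [(hST (Fin i → Bool) (KK i)).2 l m, cardB]
  have h4 : ((2 : ℝ) ^ i) ^ 2 = (4 : ℝ) ^ i := by
    rw [← pow_mul, mul_comm, pow_mul]
    norm_num
  rw [h4]
  congr 1
  refine Finset.sum_congr rfl fun x _ => Finset.sum_congr rfl fun y _ => ?_
  rw [hSD i x, hSD i y]

theorem eu_mono (hST : S_ST) (hSD : S_SD) (u : Fin 2 →₀ ℕ) (a : ℝ) (i : ℕ) :
    EU (fun s t => MvPolynomial.eval ![s, t] (MvPolynomial.monomial u a)) i
      = a * (tW (KK i) (Star (u 0)) * tW (KK i) (Star (u 1))) := by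
  rw [tstar hST hSD, tstar hST hSD]
  unfold EU
  have h4 : (4 : ℝ) ^ i = (2 : ℝ) ^ i * (2 : ℝ) ^ i := by
    rw [← mul_pow]
    norm_num
  have hs : ∑ x : Fin i → Bool, ∑ y : Fin i → Bool,
      MvPolynomial.eval ![DD i x, DD i y] (MvPolynomial.monomial u a)
      = a * ((∑ x : Fin i → Bool, DD i x ^ (u 0)) * (∑ y : Fin i → Bool, DD i y ^ (u 1))) := by
    rw [Finset.sum_mul_sum, Finset.mul_sum]
    refine Finset.sum_congr rfl fun x _ => ?_
    rw [Finset.mul_sum]
    refine Finset.sum_congr rfl fun y _ => ?_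
    rw [ev_mono]
  rw [hs, h4, div_mul_div_comm, mul_div_assoc]

theorem ek_mono (hST : S_ST) (hSD : S_SD) (u : Fin 2 →₀ ℕ) (a : ℝ) (i : ℕ) :
    EK (fun s t => MvPolynomial.eval ![s, t] (MvPolynomial.monomial u a)) i
      = a * tW (KK i) (DStar (u 0) (u 1)) := by
  rw [tdstar hST hSD]
  unfold EK
  rw [← mul_div_assoc]
  congr 1
  rw [Finset.mul_sum]
  refine Finset.sum_congr rfl fun x _ => ?_
  rw [Finset.mul_sum]
  refine Finset.sum_congr rfl fun y _ => ?_
  show KK i x y * MvPolynomial.eval ![DD i x, DD i y] (MvPolynomial.monomial u a) = _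
  rw [ev_mono]
  ring

theorem EU_add (f g : ℝ → ℝ → ℝ) (i : ℕ) : EU (fun s t => f s t + g s t) i = EU f i + EU g i := by
  unfold EU
  rw [← add_div]
  congr 1
  simp only [Finset.sum_add_distrib]

theorem EK_add (f g : ℝ → ℝ → ℝ) (i : ℕ) : EK (fun s t => f s t + g s t) i = EK f i + EK g i := by
  unfold EK
  rw [← add_div]
  congr 1
  simp only [mul_add, Finset.sum_add_distrib]

theorem kp : S_T3 → S_ST → S_SD → S_KP := by
  intro hT3 hST hSD κ hRM q
  obtain ⟨hm, hk, h1, h2⟩ := hRM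
  induction q using MvPolynomial.induction_on' with
  | monomial u a =>
    have hI : Integrable (fun z : ℝ × ℝ => dg κ z.1 ^ (u 0) * dg κ z.2 ^ (u 1)) (mu.prod mu) :=
      (h1 (u 0)).1.mul_prod (h1 (u 1)).1
    have hv : ∫ z : ℝ × ℝ, dg κ z.1 ^ (u 0) * dg κ z.2 ^ (u 1) ∂(mu.prod mu)
        = cc (Star (u 0)) * cc (Star (u 1)) := by
      rw [integral_prod_mul (fun x => dg κ x ^ (u 0)) (fun x => dg κ x ^ (u 1)), (h1 (u 0)).2,
        (h1 (u 1)).2]
    have hk2 : (fun z : ℝ × ℝ => κ z.1 z.2 *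
        MvPolynomial.eval ![dg κ z.1, dg κ z.2] (MvPolynomial.monomial u a))
        = fun z : ℝ × ℝ => a * (κ z.1 z.2 * dg κ z.1 ^ (u 0) * dg κ z.2 ^ (u 1)) := by
      funext z
      rw [ev_mono]
      ring
    have hk1 : (fun z : ℝ × ℝ =>
        MvPolynomial.eval ![dg κ z.1, dg κ z.2] (MvPolynomial.monomial u a))
        = fun z : ℝ × ℝ => a * (dg κ z.1 ^ (u 0) * dg κ z.2 ^ (u 1)) := by
      funext z
      rw [ev_mono]
    refine ⟨?_, ?_, ?_, ?_⟩
    · rw [hk1]
      exact hI.const_mul a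
    · rw [hk2]
      exact (h2 (u 0) (u 1)).1.const_mul a
    · rw [hk1, integral_const_mul, hv]
      have hf : EU (fun s t => MvPolynomial.eval ![s, t] (MvPolynomial.monomial u a))
          = fun i => a * (tW (KK i) (Star (u 0)) * tW (KK i) (Star (u 1))) := by
        funext i
        exact eu_mono hST hSD u a i
      rw [hf]
      exact (((hT3 _ (Star (u 0))).2).mul ((hT3 _ (Star (u 1))).2)).const_mul a
    · rw [hk2, integral_const_mul, (h2 (u 0) (u 1)).2]
      have hf : EK (fun s t => MvPolynomial.eval ![s, t] (MvPolynomial.monomial u a))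
          = fun i => a * tW (KK i) (DStar (u 0) (u 1)) := by
        funext i
        exact ek_mono hST hSD u a i
      rw [hf]
      exact ((hT3 _ (DStar (u 0) (u 1))).2).const_mul a
  | add p q hp hq =>
    obtain ⟨p1, p2, p3, p4⟩ := hp
    obtain ⟨q1, q2, q3, q4⟩ := hq
    have e1 : (fun z : ℝ × ℝ => MvPolynomial.eval ![dg κ z.1, dg κ z.2] (p + q))
        = fun z : ℝ × ℝ => MvPolynomial.eval ![dg κ z.1, dg κ z.2] p
          + MvPolynomial.eval ![dg κ z.1, dg κ z.2] q := by
      funext z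
      rw [map_add]
    have e2 : (fun z : ℝ × ℝ => κ z.1 z.2 * MvPolynomial.eval ![dg κ z.1, dg κ z.2] (p + q))
        = fun z : ℝ × ℝ => κ z.1 z.2 * MvPolynomial.eval ![dg κ z.1, dg κ z.2] p
          + κ z.1 z.2 * MvPolynomial.eval ![dg κ z.1, dg κ z.2] q := by
      funext z
      rw [map_add, mul_add]
    have e3 : EU (fun s t => MvPolynomial.eval ![s, t] (p + q))
        = fun i => EU (fun s t => MvPolynomial.eval ![s, t] p) i
          + EU (fun s t => MvPolynomial.eval ![s, t] q) i := by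
      funext i
      rw [← EU_add]
      congr 1
      funext s t
      rw [map_add]
    have e4 : EK (fun s t => MvPolynomial.eval ![s, t] (p + q))
        = fun i => EK (fun s t => MvPolynomial.eval ![s, t] p) i
          + EK (fun s t => MvPolynomial.eval ![s, t] q) i := by
      funext i
      rw [← EK_add]
      congr 1
      funext s t
      rw [map_add]
    refine ⟨?_, ?_, ?_, ?_⟩
    · rw [e1]
      exact p1.add q1
    · rw [e2]
      exact p2.add q2
    · rw [e1, e3, integral_add p1 q1]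
      exact p3.add q3
    · rw [e2, e4, integral_add p2 q2]
      exact p4.add q4

end

end Pool.Agent.W214.GL
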